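import Mathlib
import Pool.Agent.Lib.MP_36fd63_nt.H41Embed

/-!
The transfer from matchings whose sums lie on separated scales to a set of integers.
-/

set_option autoImplicit false

namespace Pool.Agent.FS.ScaleMatchings

open Pool.Agent.Lib.MP_36fd63_nt Finset

theorem transferS {Γ ι : Type} [Fintype Γ] [Fintype ι] {d : ℕ} (v : ι → Γ → ℤ)
    (W : Fin d → Finset (ι → Γ))
    (hinj : ∀ l j, ∀ w ∈ W l, ∀ w' ∈ W l, w j = w' j → w = w') (X Y : Fin d → ℝ)
    (hX : ∀ l, 0 ≤ X l)
    (hsum : ∀ l, ∀ w ∈ W l, X l ≤ ((∑ j, v j (w j) : ℤ) : ℝ) ∧ ((∑ j, v j (w j) : ℤ) : ℝ) ≤ Y l)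
    (hsep : ∀ l l', l < l' → (Fintype.card ι : ℝ) * (Y l + 1) < X l')
    (hι : 0 < Fintype.card ι) (hd : 0 < d) (hΓ : 0 < Fintype.card Γ) :
    ∃ B : Finset ℤ, d ≤ #B ∧ Fintype.card Γ ≤ #B ∧
      #B ≤ (200 * Fintype.card ι ^ 4 * d * Fintype.card Γ) ^ (3 * Fintype.card ι + 4) ∧
      ∀ C : Finset ℕ, (∀ a : ℕ, (∃ f : ι → ℤ, (∀ i, f i ∈ B) ∧ ∑ i, f i = a) →
        ∃ g : ι → ℕ, (∀ i, g i ∈ C) ∧ ∑ i, g i = a) →
        #B * ∑ l, #(W l) ≤ 32 * Fintype.card ι ^ 3 * Fintype.card Γ * #C := by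
  classical
  set k := Fintype.card ι with hk
  set m := Fintype.card Γ with hm
  obtain ⟨R, hR⟩ : ∃ R, R = 200 * k ^ 3 * d := ⟨_, rfl⟩
  have hR0 : 0 < R := by rw [hR]; positivity
  obtain ⟨θ, hθ⟩ : ∃ θ, θ = 4 * k ^ 3 * R ^ k * (m * k * d) ^ (k - 1) := ⟨_, rfl⟩
  have hθ0 : 0 < θ := by rw [hθ]; positivity
  obtain ⟨s, hs⟩ : ∃ s, s = 4 * k ^ 3 * R ^ k * θ := ⟨_, rfl⟩
  have hs0 : 0 < s := by rw [hs]; positivity
  obtain ⟨n, hn⟩ : ∃ n, n = m * (k * s) := ⟨_, rfl⟩
  have hn0 : 0 < n := by rw [hn]; positivity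
  let e : Γ × ι × Fin s ≃ Fin n := Fintype.equivFinOfCardEq (by simp [hn, hm, hk])
  obtain ⟨Q, hQ⟩ : ∃ Q, Q = n * k * (n * k) + 2 * k + 1 := ⟨_, rfl⟩
  have hQk : 2 * k < Q := by omega
  let b : Γ × ι × Fin s → ℤ := fun z =>
    (Q : ℤ) ^ (e z : ℕ) + Q ^ n * v z.2.1 z.1
  have hb : Function.Injective b := by
    intro z z' h
    by_contra hne
    have := digits_fam (Q := Q) e (fun i : Bool => cond i z z') (fun i => cond i 1 (-1))
      (by simp; omega) (by
        simp only [Fintype.sum_bool, cond_true, cond_false]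
        refine ⟨v z'.2.1 z'.1 - v z.2.1 z.1, ?_⟩
        simp only [b] at h
        linear_combination h) (i0 := true) (by
        rintro (_ | _) h
        · exact absurd h.symm hne
        · rfl)
    simp at this
  have hB : #(univ.image b) = n := by rw [card_image_of_injective _ hb, card_univ]; simp [hn, hm, hk]
  refine ⟨univ.image b, ?_, ?_, ?_, fun C hC => ?_⟩
  · rw [hB, hn, hs]
    calc d ≤ R := by rw [hR]; exact Nat.le_mul_of_pos_left _ (by positivity)
      _ ≤ R ^ k := Nat.le_self_pow hι.ne' _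
      _ ≤ (m * k * (4 * k ^ 3) * θ) * R ^ k := Nat.le_mul_of_pos_left _ (by positivity)
      _ = _ := by ring
  · rw [hB, hn]
    exact Nat.le_mul_of_pos_right _ (by positivity)
  · clear hsep hsum hX
    clear X Y
    obtain ⟨X, hX⟩ : ∃ X, X = 200 * k ^ 4 * d * m := ⟨_, rfl⟩
    have h1 : R ≤ X := by
      rw [hR, hX]
      calc 200 * k ^ 3 * d = 200 * k ^ 3 * d * 1 * 1 := by ring
        _ ≤ 200 * k ^ 3 * d * k * m := by gcongr <;> omega
        _ = _ := by ring
    have h2 : 4 * k ^ 3 ≤ X := le_trans (by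
      rw [hR]
      calc 4 * k ^ 3 = 4 * k ^ 3 * 1 := by ring
        _ ≤ 200 * k ^ 3 * d := by gcongr <;> omega) h1
    have h3 : m * k * d ≤ X := by
      rw [hX]
      calc m * k * d = 1 * (m * k * d) := by ring
        _ ≤ (200 * k ^ 3) * (m * k * d) := Nat.mul_le_mul_right _ (by
          have : 0 < 200 * k ^ 3 := by positivity
          omega)
        _ = _ := by ring
    have h4 : m * k ≤ X := (Nat.le_mul_of_pos_right _ hd).trans h3
    have hX0 : 0 < X := hR0.trans_le h1
    rw [hB, hn, hs, hθ, ← hX, ← mul_assoc]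
    calc m * k * (4 * k ^ 3 * R ^ k * (4 * k ^ 3 * R ^ k * (m * k * d) ^ (k - 1)))
        ≤ X * (X * X ^ k * (X * X ^ k * X ^ (k - 1))) := by gcongr
      _ = X ^ (2 * k + (k - 1) + 3) := by ring
      _ ≤ _ := Nat.pow_le_pow_right hX0 (by omega)
  rw [hB]
  by_contra hlt
  rw [not_le] at hlt
  have hWm : ∀ l, #(W l) ≤ m := fun l => by
    obtain ⟨j0⟩ := Fintype.card_pos_iff.1 hι
    exact card_le_card_of_injOn (t := univ) (fun w => w j0) (fun _ _ => mem_univ _)
      fun w hw w' hw' h => hinj l j0 w hw w' hw' h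
  have hN : #C ≤ n * d := by
    have h1 : ∑ l, #(W l) ≤ d * m :=
      (sum_le_card_nsmul _ _ m fun l _ => hWm l).trans (by simp)
    have h2 : m * #C ≤ m * (n * d) :=
      calc m * #C = 1 * m * #C := by ring
        _ ≤ 32 * k ^ 3 * m * #C := by
          have : 0 < 32 * k ^ 3 := by positivity
          gcongr
          omega
        _ ≤ n * ∑ l, #(W l) := hlt.le
        _ ≤ n * (d * m) := Nat.mul_le_mul_left _ h1
        _ = _ := by ring
    exact Nat.le_of_mul_le_mul_left h2 hΓ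
  obtain ⟨σ, hσ⟩ : ∃ σ : (l : Fin d) → W l → ℕ, ∀ l (w : W l), (σ l w : ℤ) = ∑ j, v j (w.1 j) := by
    refine ⟨fun l w => (∑ j, v j (w.1 j)).toNat, fun l w => Int.toNat_of_nonneg ?_⟩
    exact_mod_cast (hX l).trans (hsum l w w.2).1
  have hσ' : ∀ l (w : W l), X l ≤ σ l w ∧ (σ l w : ℝ) ≤ Y l := fun l w => by
    have := hsum l w w.2
    rw [← hσ l w] at this
    exact_mod_cast this
  let a : (l : Fin d) → W l → (ι → Fin s) → ℕ := fun l w f =>
    Q ^ n * σ l w + ∑ j, Q ^ (e (w.1 j, j, f j) : ℕ)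
  have ha : ∀ l (w : W l) f, ∃ g : ι → ℕ, (∀ i, g i ∈ C) ∧ ∑ i, g i = a l w f := by
    intro l w f
    refine hC _ ⟨fun j => b (w.1 j, j, f j), fun j => mem_image_of_mem _ (mem_univ _), ?_⟩
    simp only [a, b, sum_add_distrib, ← mul_sum]
    rw [← hσ l w]
    push_cast
    ring
  choose g hg1 hg2 using ha
  have htop : ∀ l (w : W l) f, ∃ j, a l w f ≤ k * g l w f j := by
    intro l w f
    obtain ⟨j0⟩ := Fintype.card_pos_iff.1 hι
    obtain ⟨j, -, hj⟩ := exists_max_image univ (g l w f) ⟨j0, mem_univ _⟩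
    exact ⟨j, hg2 l w f ▸ sum_le_card_nsmul _ _ _ hj⟩
  choose top htop using htop
  let T : Fin d → Finset ℕ := fun l =>
    {c ∈ C | (Q : ℝ) ^ n * X l ≤ k * c ∧ (c : ℝ) ≤ (Q : ℝ) ^ n * (Y l + 1)}
  have hQn : (0 : ℝ) < (Q : ℝ) ^ n := pow_pos (by exact_mod_cast (show 0 < Q by omega)) _
  have hT : ∀ l (w : W l) f, g l w f (top l w f) ∈ T l := by
    intro l w f
    have h1 : Q ^ n * σ l w ≤ k * g l w f (top l w f) := (Nat.le_add_right _ _).trans (htop l w f)
    have h2 : g l w f (top l w f) ≤ Q ^ n * σ l w + Q ^ n := by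
      refine (single_le_sum (f := g l w f) (fun _ _ => Nat.zero_le _) (mem_univ _)).trans ?_
      rw [hg2]
      refine Nat.add_le_add_left ((sum_le_card_nsmul _ _ (Q ^ (n - 1)) fun j _ =>
        Nat.pow_le_pow_right (by omega) (by have := (e (w.1 j, j, f j)).2; omega)).trans ?_) _
      calc Finset.card univ • Q ^ (n - 1) ≤ Q * Q ^ (n - 1) :=
            Nat.mul_le_mul_right _ (by rw [card_univ]; omega)
        _ ≤ _ := by rw [← pow_succ']; exact Nat.pow_le_pow_right (by omega) (by omega)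
    have h1' : (Q : ℝ) ^ n * σ l w ≤ k * g l w f (top l w f) := by exact_mod_cast h1
    have h2' : (g l w f (top l w f) : ℝ) ≤ (Q : ℝ) ^ n * σ l w + (Q : ℝ) ^ n := by
      exact_mod_cast h2
    refine mem_filter.2 ⟨hg1 _ _ _ _,
      (mul_le_mul_of_nonneg_left (hσ' l w).1 hQn.le).trans h1', h2'.trans ?_⟩
    have := mul_le_mul_of_nonneg_left (hσ' l w).2 hQn.le
    linarith
  have hTd : ∑ l, #(T l) ≤ #C := by
    have key : ∀ l l' : Fin d, l < l' → Disjoint (T l) (T l') := fun l l' h =>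
      disjoint_left.2 fun c hc hc' => by
        have h1 := (mem_filter.1 hc).2.2
        have h2 := (mem_filter.1 hc').2.1
        have h3 := mul_lt_mul_of_pos_left (hsep l l' h) hQn
        have h4 := mul_le_mul_of_nonneg_left h1 (Nat.cast_nonneg (α := ℝ) k)
        linarith
    rw [← card_biUnion fun l _ l' _ h => (lt_or_gt_of_ne h).elim (key l l') fun h => (key l' l h).symm]
    exact card_le_card (biUnion_subset.2 fun l _ => filter_subset _ _)
  have hind : ∀ (l : Fin d) (I : Type) [Fintype I] (w : I → W l) (f : I → ι → Fin s) (t : I → ℤ),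
      (∑ i, |t i|) * k < Q → ∑ i, t i * a l (w i) (f i) = 0 → ∀ i0 j0,
      (∀ i, w i = w i0 → f i j0 = f i0 j0 → i = i0) → t i0 = 0 := by
    intro l I _ w f t h1 h2 i0 j0 h3
    refine digits_fam (Q := Q) e (fun p : I × ι => ((w p.1).1 p.2, p.2, f p.1 p.2))
      (fun p => t p.1) ?_ ?_ (i0 := (i0, j0)) ?_
    · rw [Fintype.sum_prod_type]
      simpa [← sum_mul, ← mul_sum, mul_comm] using h1
    · refine ⟨-∑ i, t i * σ l (w i), ?_⟩
      rw [Fintype.sum_prod_type, mul_neg, eq_neg_iff_add_eq_zero, ← h2, mul_sum, ← sum_add_distrib]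
      refine sum_congr rfl fun i _ => ?_
      simp only [a, ← mul_sum]
      push_cast
      ring
    · rintro ⟨i, j⟩ h
      simp only [Prod.mk.injEq] at h ⊢
      obtain ⟨h4, rfl, h5⟩ := h
      exact ⟨h3 i (Subtype.ext (hinj l j _ (w i).2 _ (w i0).2 h4)) h5, rfl⟩
  have hnk : 0 < n * k := by positivity
  have hainj : ∀ l (w : W l), Function.Injective (a l w) := by
    intro l w f f' h
    funext j
    by_contra hne
    have := hind l Bool (fun _ => w) (fun i => cond i f f') (fun i => cond i 1 (-1))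
      (by simp; omega) (by simp [h]) true j (by
        rintro (_ | _) _ h
        · exact absurd h.symm hne
        · rfl)
    simp at this
  have hmain : ∀ l, #(W l) * s * R ≤ 16 * k ^ 2 * (#(T l) * R + #C) := by
    intro l
    let G : W l → (ι → Fin s) → ι → C := fun w f j => ⟨g l w f j, hg1 l w f j⟩
    have := stepB (E := W l) (S := Fin s) (β := C)
      (fun w f => (univ.erase (top l w f)).image (G w f)) (B := k * (n * d) ^ (k - 1)) (R := R)
      (θ := θ) (T := #(T l)) (fun w f => card_image_le.trans_lt (by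
        rw [card_erase_of_mem (mem_univ _), card_univ]; omega)) (fun w c => ?_) hθ0 hR0
      (by rw [Fintype.card_fin, hs]) ?_ hι fun C' j Z hZ => ?_
    · rwa [Fintype.card_coe, Fintype.card_fin, Fintype.card_coe] at this
    · have hG : Function.Injective (G w) := fun f f' h => hainj l w (by
        rw [← hg2, ← hg2]
        exact sum_congr rfl fun j _ => congrArg Subtype.val (congrFun h j))
      have h1 : ({f | c ∈ (univ.erase (top l w f)).image (G w f)} : Finset (ι → Fin s)).image (G w)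
          ⊆ univ.biUnion fun j => {r : ι → C | ∀ i ∈ ({j} : Finset ι), r i = c} := by
        intro r hr
        obtain ⟨f, hf, rfl⟩ := mem_image.1 hr
        obtain ⟨j, -, hj⟩ := mem_image.1 (mem_filter.1 hf).2
        exact mem_biUnion.2 ⟨j, mem_univ _, by simpa using hj⟩
      rw [← card_image_of_injective _ hG]
      refine (card_le_card h1).trans (card_biUnion_le.trans
        ((sum_le_card_nsmul _ _ ((n * d) ^ (k - 1)) fun j _ => ?_).trans (by simp [hk])))
      have h2 := count_fix {j} (fun _ : ι => c)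
      have h3 : 0 < #C := card_pos.2 ⟨_, c.2⟩
      rw [card_singleton, pow_one, Fintype.card_coe, ← hk, show k = k - 1 + 1 by omega,
        pow_succ] at h2
      rw [Nat.eq_of_mul_eq_mul_right h3 h2]
      exact Nat.pow_le_pow_left hN _
    · rw [Fintype.card_fin, ← hk]
      refine le_of_eq ?_
      calc _ = (4 * k ^ 3 * R ^ k * θ) * s ^ (k - 1) := by
            rw [hθ, hn, show m * (k * s) * d = (m * k * d) * s by ring, mul_pow _ s]; ring
        _ = _ := by rw [← hs, ← pow_succ', Nat.sub_add_cancel hι]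
    · choose f hf1 hf2 using fun p : Z => hZ p p.2
      by_contra hlt'
      have hY' : Fintype.card Z ≤ n := by
        rw [Fintype.card_coe, hn]
        refine (card_le_univ Z).trans ?_
        rw [Fintype.card_prod, Fintype.card_coe, Fintype.card_fin]
        exact Nat.mul_le_mul (hWm l) (Nat.le_mul_of_pos_left _ hι)
      obtain ⟨t, ht, ht1, ht2⟩ := small_relation (T l ∪ C'.image Subtype.val)
        (fun (p : Z) i => g l p.1.1 (f p) i) (fun p i => by
          by_cases h : i = top l p.1.1 (f p)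
          · exact mem_union_left _ (h ▸ hT _ _ _)
          · exact mem_union_right _ (mem_image.2 ⟨G p.1.1 (f p) i,
              hf2 p (mem_image_of_mem _ (mem_erase.2 ⟨h, mem_univ _⟩)), rfl⟩)) hι (by
          rw [Fintype.card_coe]
          refine lt_of_le_of_lt (Nat.mul_le_mul_left _ ((card_union_le _ _).trans ?_)) (not_le.1 hlt')
          exact Nat.add_le_add_left card_image_le _)
      refine ht (funext fun p => hind l Z (fun p => p.1.1) f t ?_ (by simpa only [hg2] using ht2)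
        p j fun p' h1 h2 => Subtype.ext (Prod.ext h1 (by rwa [hf1, hf1] at h2)))
      have h4 : ∑ i, |t i| ≤ n * (n * k) := by
        refine (sum_le_card_nsmul _ _ _ fun i _ => ht1 i).trans ?_
        rw [card_univ, nsmul_eq_mul]
        have : (Fintype.card Z : ℤ) ≤ n := by exact_mod_cast hY'
        gcongr
      calc (∑ i, |t i|) * k ≤ n * (n * k) * k := by gcongr
        _ < Q := by rw [hQ]; push_cast; nlinarith
  have h2 : (∑ l, #(W l)) * s * R ≤ 16 * k ^ 2 * (#C * R + d * #C) := by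
    calc (∑ l, #(W l)) * s * R = ∑ l, #(W l) * s * R := by rw [sum_mul, sum_mul]
      _ ≤ ∑ l, 16 * k ^ 2 * (#(T l) * R + #C) := sum_le_sum fun l _ => hmain l
      _ = 16 * k ^ 2 * ((∑ l, #(T l)) * R + d * #C) := by
          rw [← mul_sum, sum_add_distrib, ← sum_mul]; simp
      _ ≤ _ := by gcongr
  have h3 : d ≤ R := by rw [hR]; exact Nat.le_mul_of_pos_left _ (by positivity)
  have h4 : (∑ l, #(W l)) * s * R ≤ 32 * k ^ 2 * #C * R :=
    h2.trans (by nlinarith [Nat.mul_le_mul_right (16 * k ^ 2 * #C) h3])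
  have h5 : (∑ l, #(W l)) * s ≤ 32 * k ^ 2 * #C := Nat.le_of_mul_le_mul_right h4 hR0
  have h6 : n * ∑ l, #(W l) ≤ 32 * k ^ 3 * m * #C :=
    calc n * ∑ l, #(W l) = m * k * ((∑ l, #(W l)) * s) := by rw [hn]; ring
      _ ≤ m * k * (32 * k ^ 2 * #C) := Nat.mul_le_mul_left _ h5
      _ = _ := by ring
  omega

end Pool.Agent.FS.ScaleMatchings
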